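import Mathlib

/-!
# Self-dual minor-closed classes containing all independence spaces

For every infinite set `S` there is an admissible system on `S` which contains all independence
spaces, but for every infinite `W ⊆ S` it misses a B-matroid on `W`; it is the least admissible
system containing all independence spaces.  The system consists of the
B-matroids which are independence spaces or whose dual is an independence space; the missing
B-matroid is the direct sum of a rank-one uniform matroid on one infinite part of `W` and of the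
dual of a rank-one uniform matroid on the remaining infinite part.
-/

set_option autoImplicit false

open Set
open scoped Matroid

universe u

namespace Pool.Agent.Results.MP_cb2a9f_co.FinitaryOrCofinitary

variable {S : Type u}

/-- `(W, I)` is a pre-independence space. -/
structure IsPreIndependenceSpace (W : Set S) (I : Set (Set S)) : Prop where
  subset_ground : ∀ X ∈ I, X ⊆ W
  empty_mem : ∅ ∈ I
  down : ∀ X ∈ I, ∀ Y ⊆ X, Y ∈ I
  augment : ∀ I₁ ∈ I, ∀ I₂ ∈ I, I₁.Finite → I₂.Finite → I₁.ncard < I₂.ncard →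
    ∃ e ∈ I₂ \ I₁, insert e I₁ ∈ I

/-- `(W, I)` is an independence space: a pre-independence space such that a subset of `W` belongs
to `I` as soon as all its finite subsets do. -/
structure IsIndependenceSpace (W : Set S) (I : Set (Set S)) : Prop
    extends IsPreIndependenceSpace W I where
  compact : ∀ Y ⊆ W, (∀ F ⊆ Y, F.Finite → F ∈ I) → Y ∈ I

/-- The maximal members of `{Y ∈ I : Y ⊆ X}`. -/
def maxIn (I : Set (Set S)) (X : Set S) : Set (Set S) := {B | Maximal (fun Y => Y ∈ I ∧ Y ⊆ X) B}

/-- `(W, I)` is a B-matroid. -/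
structure IsBMatroid (W : Set S) (I : Set (Set S)) : Prop where
  subset_ground : ∀ X ∈ I, X ⊆ W
  empty_mem : ∅ ∈ I
  down : ∀ X ∈ I, ∀ Y ⊆ X, Y ∈ I
  ib1 : ∀ X ⊆ W, ∀ T ∈ I, T ⊆ X → ∃ B ∈ maxIn I X, T ⊆ B
  ib2 : ∀ X ⊆ W, ∀ B₁ ∈ maxIn I X, ∀ B₂ ∈ maxIn I X, ∀ x ∈ B₁ \ B₂,
    ∃ y ∈ B₂ \ B₁, insert y (B₁ \ {x}) ∈ maxIn I X

/-- A basis of a family is a maximal member. -/
def IsBasis (I : Set (Set S)) (B : Set S) : Prop := Maximal (fun Y => Y ∈ I) B

/-- The restriction of `I` to `Z`. -/
def restriction (I : Set (Set S)) (Z : Set S) : Set (Set S) := {Y | Y ⊆ Z ∧ Y ∈ I}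

/-- The contraction of `I` to `Z`, computed with the basis `B` of the restriction of `I` to the
complement of `Z`. -/
def contraction (I : Set (Set S)) (Z B : Set S) : Set (Set S) := {Y | Y ⊆ Z ∧ Y ∪ B ∈ I}

/-- The dual of `(W, I)`: the subsets of `W` whose complement in `W` contains a basis. -/
def dual (W : Set S) (I : Set (Set S)) : Set (Set S) :=
  {X | X ⊆ W ∧ ∃ B, IsBasis I B ∧ B ⊆ W \ X}

/-- `D` assigns to every `W ⊆ S` a set of pre-independence spaces on `W`, and it is an admissible
system: it is closed under restrictions and under contractions (which are well defined), and under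
duality, which is an involution on it. -/
structure IsAdmissible (D : Set S → Set (Set (Set S))) : Prop where
  pre : ∀ W, ∀ I ∈ D W, IsPreIndependenceSpace W I
  restriction_mem : ∀ W Z, Z ⊆ W → ∀ I ∈ D W, restriction I Z ∈ D Z
  exists_basis : ∀ W Z, Z ⊆ W → ∀ I ∈ D W, ∃ B, IsBasis (restriction I (W \ Z)) B
  contraction_unique : ∀ W Z, Z ⊆ W → ∀ I ∈ D W, ∀ B B', IsBasis (restriction I (W \ Z)) B →
    IsBasis (restriction I (W \ Z)) B' → contraction I Z B = contraction I Z B'
  contraction_mem : ∀ W Z, Z ⊆ W → ∀ I ∈ D W, ∀ B, IsBasis (restriction I (W \ Z)) B →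
    contraction I Z B ∈ D Z
  dual_mem : ∀ W, ∀ I ∈ D W, dual W I ∈ D W
  dual_dual : ∀ W, ∀ I ∈ D W, dual W (dual W I) = I

/-! ### Translation to Mathlib matroids -/

/-- the family of the independent sets of a matroid -/
def fam (M : Matroid S) : Set (Set S) := {X | M.Indep X}

theorem fam_inj {M N : Matroid S} (hE : M.E = N.E) (h : fam M = fam N) : M = N :=
  Matroid.ext_indep hE fun I _ => by
    have : (I ∈ fam M) = (I ∈ fam N) := by rw [h]
    exact iff_of_eq this

theorem pre_fam (M : Matroid S) : IsPreIndependenceSpace M.E (fam M) where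
  subset_ground X hX := Matroid.Indep.subset_ground hX
  empty_mem := M.empty_indep
  down X hX Y hY := Matroid.Indep.subset hX hY
  augment I₁ h₁ I₂ h₂ f₁ f₂ hlt := by
    obtain ⟨e, he, h⟩ := Matroid.Indep.augment h₁ h₂ (by
      rw [← f₁.cast_ncard_eq, ← f₂.cast_ncard_eq]
      exact_mod_cast hlt)
    exact ⟨e, he, h⟩

theorem mem_maxIn_fam (M : Matroid S) {X B : Set S} (hX : X ⊆ M.E) :
    B ∈ maxIn (fam M) X ↔ M.IsBasis B X :=
  ⟨fun h => ⟨h, hX⟩, fun h => h.1⟩

theorem bmatroid_fam (M : Matroid S) : IsBMatroid M.E (fam M) where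
  subset_ground X hX := Matroid.Indep.subset_ground hX
  empty_mem := M.empty_indep
  down X hX Y hY := Matroid.Indep.subset hX hY
  ib1 X hX T hT hTX := by
    obtain ⟨B, hB, hTB⟩ := Matroid.Indep.subset_isBasis_of_subset hT hTX
    exact ⟨B, (mem_maxIn_fam M hX).2 hB, hTB⟩
  ib2 X hX B₁ h₁ B₂ h₂ x hx := by
    rw [mem_maxIn_fam M hX] at h₁ h₂
    obtain ⟨y, hy, h⟩ := h₁.exchange h₂ hx
    exact ⟨y, hy, (mem_maxIn_fam M hX).2 h⟩

theorem isBasis_fam (M : Matroid S) (B : Set S) : IsBasis (fam M) B ↔ M.IsBase B := by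
  rw [Matroid.isBase_iff_maximal_indep]
  exact Iff.rfl

theorem isBasis_restriction_fam (M : Matroid S) {Z B : Set S} (hZ : Z ⊆ M.E) :
    IsBasis (restriction (fam M) Z) B ↔ M.IsBasis B Z := by
  constructor
  · intro h
    exact ⟨⟨⟨h.1.2, h.1.1⟩, fun Y hY hBY => h.2 ⟨hY.2, hY.1⟩ hBY⟩, hZ⟩
  · intro h
    exact ⟨⟨h.1.1.2, h.1.1.1⟩, fun Y hY hBY => h.1.2 ⟨hY.2, hY.1⟩ hBY⟩

theorem restriction_fam (M : Matroid S) (Z : Set S) : restriction (fam M) Z = fam (M ↾ Z) := by
  ext Y
  constructor
  · intro h
    exact Matroid.restrict_indep_iff.2 ⟨h.2, h.1⟩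
  · intro h
    have h' := Matroid.restrict_indep_iff.1 h
    exact ⟨h'.2, h'.1⟩

theorem contraction_fam (M : Matroid S) {Z B : Set S}
    (hB : M.IsBasis B (M.E \ Z)) : contraction (fam M) Z B = fam (M ／ (M.E \ Z)) := by
  ext Y
  have h := hB.contract_indep_iff (J := Y)
  constructor
  · intro hY
    exact h.2 ⟨hY.2, disjoint_left.2 fun x hx hxY => hx.2 (hY.1 hxY)⟩
  · intro hY
    have h' := h.1 hY
    refine ⟨fun x hx => ?_, h'.1⟩
    by_contra hxZ
    exact disjoint_left.1 h'.2
      ⟨h'.1.subset_ground (Or.inl hx), hxZ⟩ hx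

theorem dual_fam (M : Matroid S) : dual M.E (fam M) = fam M✶ := by
  ext X
  constructor
  · rintro ⟨hX, B, hB, hBX⟩
    refine (Matroid.dual_indep_iff_exists' (M := M)).2 ⟨hX, B, (isBasis_fam M B).1 hB, ?_⟩
    exact disjoint_left.2 fun x hx hxB => (hBX hxB).2 hx
  · intro h
    obtain ⟨hX, B, hB, hd⟩ := (Matroid.dual_indep_iff_exists' (M := M)).1 h
    exact ⟨hX, B, (isBasis_fam M B).2 hB,
      fun x hx => ⟨hB.subset_ground hx, fun hxX => disjoint_left.1 hd hxX hx⟩⟩

/-! ### The system -/

/-- the B-matroids on `W` which are finitary or have a finitary dual -/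
def sys (W : Set S) : Set (Set (Set S)) :=
  {I | ∃ M : Matroid S, M.E = W ∧ (M.Finitary ∨ M✶.Finitary) ∧ I = fam M}

theorem sys_admissible : IsAdmissible (sys (S := S)) where
  pre := by
    rintro W I ⟨M, rfl, -, rfl⟩
    exact pre_fam M
  restriction_mem := by
    rintro W Z hZ I ⟨M, rfl, hM, rfl⟩
    refine ⟨M ↾ Z, rfl, ?_, restriction_fam M Z⟩
    rcases hM with hM | hM
    · left; infer_instance
    · right
      have h : (M ↾ Z)✶ = M✶ ／ (M.E \ Z) := by
        rw [← Matroid.dual_delete, Matroid.delete_compl hZ]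
      rw [h]
      infer_instance
  exists_basis := by
    rintro W Z hZ I ⟨M, rfl, hM, rfl⟩
    obtain ⟨B, hB⟩ := M.exists_isBasis (M.E \ Z) sdiff_subset
    exact ⟨B, (isBasis_restriction_fam M sdiff_subset).2 hB⟩
  contraction_unique := by
    rintro W Z hZ I ⟨M, rfl, hM, rfl⟩ B B' hB hB'
    rw [isBasis_restriction_fam M sdiff_subset] at hB hB'
    rw [contraction_fam M hB, contraction_fam M hB']
  contraction_mem := by
    rintro W Z hZ I ⟨M, rfl, hM, rfl⟩ B hB
    rw [isBasis_restriction_fam M sdiff_subset] at hB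
    rw [contraction_fam M hB]
    refine ⟨M ／ (M.E \ Z), ?_, ?_, rfl⟩
    · rw [Matroid.contract_ground, sdiff_sdiff_right_self]
      exact inter_eq_right.2 hZ
    · rcases hM with hM | hM
      · left; infer_instance
      · right
        rw [Matroid.dual_contract]
        infer_instance
  dual_mem := by
    rintro W I ⟨M, rfl, hM, rfl⟩
    refine ⟨M✶, rfl, ?_, dual_fam M⟩
    rw [Matroid.dual_dual]
    exact hM.symm
  dual_dual := by
    rintro W I ⟨M, rfl, hM, rfl⟩
    have h : dual M.E (fam M✶) = dual (M✶).E (fam M✶) := rfl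
    rw [dual_fam M, h, dual_fam, Matroid.dual_dual]

theorem indep_fam (M : Matroid S) [hM : M.Finitary] : IsIndependenceSpace M.E (fam M) where
  toIsPreIndependenceSpace := pre_fam M
  compact Y _ h := hM.indep_of_forall_finite Y h

/-- the matroid of an independence space -/
theorem exists_matroid {W : Set S} {I : Set (Set S)} (h : IsIndependenceSpace W I) :
    ∃ M : Matroid S, M.E = W ∧ M.Finitary ∧ I = fam M := by
  have hground : ∀ Y, (∀ J ⊆ Y, J.Finite → J ∈ I) → Y ⊆ W := fun Y hY x hx =>
    h.subset_ground {x} (hY {x} (singleton_subset_iff.2 hx) (finite_singleton x)) rfl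
  let N : IndepMatroid S := IndepMatroid.ofFinitaryCardAugment W (fun X => X ∈ I) h.empty_mem
    (fun X Y hY hXY => h.down Y hY X hXY)
    (fun X Y hX fX hY fY hlt => by
      obtain ⟨e, he, hi⟩ := h.augment X hX Y hY fX fY hlt
      exact ⟨e, he.1, he.2, hi⟩)
    (fun Y hY => h.compact Y (hground Y hY) hY)
    (fun X hX => h.subset_ground X hX)
  exact ⟨N.matroid, rfl, IndepMatroid.ofFinitaryCardAugment_finitary _ _ _ _ _ _ _, rfl⟩

/-- the rank-one uniform matroid on a set -/
def rankOne (A : Set S) : Matroid S :=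
  (IndepMatroid.ofFinitaryCardAugment A (fun X => X ⊆ A ∧ X.Subsingleton)
    ⟨empty_subset _, subsingleton_empty⟩
    (fun _ _ hY hXY => ⟨hXY.trans hY.1, hY.2.anti hXY⟩)
    (fun X Y hX fX hY fY hlt => by
      have h1 : Y.ncard ≤ 1 := by
        rcases hY.2.eq_empty_or_singleton with h | ⟨y, h⟩
        · rw [h, ncard_empty]; exact Nat.zero_le _
        · rw [h, ncard_singleton]
      have h2 : X = ∅ := (ncard_eq_zero fX).1 (by omega)
      have h3 : Y.Nonempty := (ncard_pos fY).1 (by omega)
      obtain ⟨y, hy⟩ := h3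
      refine ⟨y, hy, by simp [h2], ?_, ?_⟩
      · rw [h2]; simpa using hY.1 hy
      · rw [h2]; simp)
    (fun Y hY => by
      refine ⟨fun x hx => (hY {x} (singleton_subset_iff.2 hx) (finite_singleton x)).1 rfl, ?_⟩
      intro x hx y hy
      exact (hY {x, y} (by
        rintro z (rfl | rfl)
        · exact hx
        · exact hy) (by simp)).2 (by simp) (by simp))
    (fun X hX => hX.1)).matroid

theorem rankOne_ground (A : Set S) : (rankOne A).E = A := rfl

theorem rankOne_indep (A X : Set S) : (rankOne A).Indep X ↔ X ⊆ A ∧ X.Subsingleton := Iff.rfl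

theorem rankOne_isBase {A B : Set S} (hA : A.Nonempty) :
    (rankOne A).IsBase B ↔ ∃ a ∈ A, B = {a} := by
  rw [Matroid.isBase_iff_maximal_indep]
  constructor
  · intro h
    have h1 := (rankOne_indep A B).1 h.1
    rcases h1.2.eq_empty_or_singleton with h2 | ⟨b, h2⟩
    · exfalso
      obtain ⟨a, ha⟩ := hA
      have h3 := h.2 ((rankOne_indep A {a}).2 ⟨singleton_subset_iff.2 ha, subsingleton_singleton⟩)
        (by rw [h2]; exact empty_subset _)
      have h4 : a ∈ B := h3 rfl
      rw [h2] at h4
      exact h4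
    · refine ⟨b, h1.1 (by rw [h2]; rfl), h2⟩
  · rintro ⟨a, ha, rfl⟩
    refine ⟨(rankOne_indep A {a}).2 ⟨singleton_subset_iff.2 ha, subsingleton_singleton⟩, ?_⟩
    intro Y hY hY' y hy
    exact ((rankOne_indep A Y).1 hY).2 hy (hY' rfl)

theorem rankOne_dual_indep {A X : Set S} (hA : A.Nonempty) :
    (rankOne A)✶.Indep X ↔ X ⊂ A := by
  rw [Matroid.dual_indep_iff_exists', rankOne_ground]
  constructor
  · rintro ⟨hX, B, hB, hd⟩
    obtain ⟨a, ha, rfl⟩ := (rankOne_isBase hA).1 hB
    refine ⟨hX, fun h => disjoint_left.1 hd (h ha) rfl⟩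
  · intro h
    obtain ⟨a, ha, haX⟩ := exists_of_ssubset h
    exact ⟨h.1, {a}, (rankOne_isBase hA).2 ⟨a, ha, rfl⟩, disjoint_singleton_right.2 haX⟩

/-- an infinite set carries a B-matroid which is neither finitary nor cofinitary -/
theorem exists_bad {W : Set S} (hW : W.Infinite) :
    ∃ M : Matroid S, M.E = W ∧ ¬ M.Finitary ∧ ¬ M✶.Finitary := by
  obtain ⟨A, B, hdisj, hAB, hAi, hBi⟩ : ∃ A B : Set S, Disjoint A B ∧ A ∪ B = W ∧
      A.Infinite ∧ B.Infinite := by
    have : Infinite W := hW.to_subtype
    let f : ℕ ↪ W := Infinite.natEmbedding W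
    let A : Set S := range fun n : ℕ => (f (2 * n) : S)
    have hA : A ⊆ W := by rintro _ ⟨n, rfl⟩; exact (f (2 * n)).2
    refine ⟨A, W \ A, disjoint_sdiff_right, union_sdiff_cancel hA, ?_, ?_⟩
    · refine infinite_range_of_injective fun m n h => ?_
      have h1 := f.injective (Subtype.ext h)
      omega
    · have hsub : (range fun n : ℕ => (f (2 * n + 1) : S)) ⊆ W \ A := by
        rintro _ ⟨n, rfl⟩
        refine ⟨(f (2 * n + 1)).2, ?_⟩
        rintro ⟨m, hm⟩
        have h1 := f.injective (Subtype.ext hm)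
        omega
      refine Infinite.mono hsub (infinite_range_of_injective fun m n h => ?_)
      have h1 := f.injective (Subtype.ext h)
      omega
  have hAne := hAi.nonempty
  have hBne := hBi.nonempty
  have hd : Disjoint (rankOne A).E ((rankOne B)✶).E := hdisj
  -- a set all whose finite subsets are independent, but which is not independent
  refine ⟨(rankOne A).disjointSum (rankOne B)✶ hd, ?_, ?_, ?_⟩
  · rw [Matroid.disjointSum_ground_eq]
    exact hAB
  · intro hfin
    have h := hfin.indep_of_forall_finite B (fun J hJ hJf => by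
      rw [Matroid.disjointSum_indep_iff]
      refine ⟨?_, ?_, ?_⟩
      · rw [rankOne_ground, (hdisj.symm.mono_left hJ).inter_eq]
        exact Matroid.empty_indep _
      · rw [Matroid.dual_ground, rankOne_ground, inter_eq_left.2 hJ, rankOne_dual_indep hBne]
        exact ⟨hJ, fun h => hBi (hJf.subset h)⟩
      · exact hJ.trans subset_union_right)
    rw [Matroid.disjointSum_indep_iff] at h
    have h2 := h.2.1
    rw [Matroid.dual_ground, rankOne_ground, inter_self, rankOne_dual_indep hBne] at h2
    exact h2.2 Subset.rfl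
  · intro hfin
    have key : ∀ X ⊆ A, ((rankOne A).disjointSum (rankOne B)✶ hd)✶.Indep X ↔ X ⊂ A := by
      intro X hX
      rw [Matroid.dual_indep_iff_exists']
      constructor
      · rintro ⟨-, C, hC, hdX⟩
        rw [Matroid.disjointSum_isBase_iff] at hC
        obtain ⟨a, ha, hCa⟩ := (rankOne_isBase hAne).1 hC.1
        refine ⟨hX, fun h => ?_⟩
        have haC : a ∈ C ∩ (rankOne A).E := by rw [hCa]; rfl
        exact disjoint_left.1 hdX (h ha) haC.1
      · intro h
        obtain ⟨a, ha, haX⟩ := exists_of_ssubset h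
        obtain ⟨b, hb⟩ := hBne
        refine ⟨?_, insert a (B \ {b}), ?_, ?_⟩
        · rw [Matroid.disjointSum_ground_eq]
          exact hX.trans subset_union_left
        · rw [Matroid.disjointSum_isBase_iff]
          refine ⟨?_, ?_, ?_⟩
          · rw [rankOne_ground, rankOne_isBase hAne]
            refine ⟨a, ha, ?_⟩
            ext x
            constructor
            · rintro ⟨rfl | hx, hxA⟩
              · rfl
              · exact absurd hxA (fun hxA => disjoint_left.1 hdisj hxA hx.1)
            · rintro rfl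
              exact ⟨Or.inl rfl, ha⟩
          · rw [Matroid.dual_ground, rankOne_ground, Matroid.dual_isBase_iff', rankOne_ground]
            refine ⟨?_, inter_subset_right⟩
            rw [rankOne_isBase ⟨b, hb⟩]
            refine ⟨b, hb, ?_⟩
            ext x
            constructor
            · rintro ⟨hxB, hx⟩
              by_contra hxb
              exact hx ⟨Or.inr ⟨hxB, hxb⟩, hxB⟩
            · rintro rfl
              refine ⟨hb, ?_⟩
              rintro ⟨h1 | h1, -⟩
              · rw [h1] at hb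
                exact disjoint_left.1 hdisj ha hb
              · exact h1.2 rfl
          · rintro x (rfl | hx)
            · exact Or.inl ha
            · exact Or.inr hx.1
        · refine disjoint_left.2 ?_
          rintro x hx (rfl | hxB)
          · exact haX hx
          · exact disjoint_left.1 hdisj (hX hx) hxB.1
    have h := hfin.indep_of_forall_finite A (fun J hJ hJf => (key J hJ).2
      ⟨hJ, fun h => hAi (hJf.subset h)⟩)
    exact ((key A Subset.rfl).1 h).2 Subset.rfl

/-- For every infinite set `S` there is an admissible system `D` on `S` such that `D W` contains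
all independence spaces on `W`, for every `W ⊆ S`, while for every infinite `W ⊆ S` some B-matroid
on `W` is not in `D W`.  Moreover `D` is contained in every admissible system which contains all
independence spaces. -/
theorem result (S : Type u) [Infinite S] :
    ∃ D : Set S → Set (Set (Set S)),
      IsAdmissible D ∧
      (∀ W I, IsIndependenceSpace W I → I ∈ D W) ∧
      (∀ W : Set S, W.Infinite → ∃ I, IsBMatroid W I ∧ I ∉ D W) ∧
      ∀ D' : Set S → Set (Set (Set S)), IsAdmissible D' →
        (∀ W I, IsIndependenceSpace W I → I ∈ D' W) → ∀ W, D W ⊆ D' W := by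
  refine ⟨sys, sys_admissible, ?_, ?_, ?_⟩
  · intro W I hI
    obtain ⟨M, hE, hM, hI⟩ := exists_matroid hI
    exact ⟨M, hE, Or.inl hM, hI⟩
  · intro W hW
    obtain ⟨M, hE, h1, h2⟩ := exists_bad hW
    refine ⟨fam M, hE ▸ bmatroid_fam M, ?_⟩
    rintro ⟨N, hN, hf, hMN⟩
    have := fam_inj (hE.trans hN.symm) hMN
    subst this
    exact hf.elim h1 h2
  · rintro D' hD' hcont W I ⟨M, rfl, hM, rfl⟩
    rcases hM with hM | hM
    · exact hcont _ _ (indep_fam M)
    · have h1 := hD'.dual_mem _ _ (hcont _ _ (indep_fam M✶))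
      rwa [dual_fam, Matroid.dual_dual] at h1

end Pool.Agent.Results.MP_cb2a9f_co.FinitaryOrCofinitary
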